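import Mathlib

/-!
# An algebraic poset that is not weakly atomic

Let `Q` be the poset of all pairs `(n, t)`, `n` a natural number and `t ≥ 0` rational, with
`(n, t) < (m, s)` iff `n ≤ m` and `t < s`, or `n < m` and `t = s = 0`.
The ideals of `Q` form an algebraic poset. Let `x` be the ideal of the pairs `(n, 0)` and let `y`
be the ideal `Q`. The ideals between `x` and `y` other than `x` are the sets of all `(n, t)` with
`t < r` (`r > 0` real or infinite), so there is no covering pair between `x` and `y`.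
-/

set_option autoImplicit false

namespace Pool.Agent.Results.MP_e59eee_co.NotWeaklyAtomic

/-- Every directed subset (nonempty, any two elements have an upper bound in it) has a join. -/
def UpComplete (P : Type*) [PartialOrder P] : Prop :=
  ∀ D : Set P, D.Nonempty → DirectedOn (· ≤ ·) D → ∃ s, IsLUB D s

/-- `c` is compact: whenever `c` is below the join of a directed set, it is below a member. -/
def Compact {P : Type*} [PartialOrder P] (c : P) : Prop :=
  ∀ D : Set P, D.Nonempty → DirectedOn (· ≤ ·) D → ∀ s, IsLUB D s → c ≤ s → ∃ d ∈ D, c ≤ d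

/-- `P` is up-complete and every element is the join of a directed set of compact elements. -/
def Algebraic (P : Type*) [PartialOrder P] : Prop :=
  UpComplete P ∧ ∀ x : P, ∃ D : Set P, D.Nonempty ∧ DirectedOn (· ≤ ·) D ∧ (∀ c ∈ D, Compact c) ∧
    IsLUB D x

/-! ### Ideals -/

section Ideals

variable {Q : Type*} [PartialOrder Q]

/-- the union of a directed set of ideals -/
def unionIdeal (D : Set (Order.Ideal Q)) (hne : D.Nonempty) (hd : DirectedOn (· ≤ ·) D) :
    Order.Ideal Q where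
  carrier := {q | ∃ I ∈ D, q ∈ I}
  lower' := by
    rintro a b hba ⟨I, hI, ha⟩
    exact ⟨I, hI, I.lower hba ha⟩
  nonempty' := by
    obtain ⟨I, hI⟩ := hne
    obtain ⟨q, hq⟩ := I.nonempty
    exact ⟨q, I, hI, hq⟩
  directed' := by
    rintro a ⟨I, hI, ha⟩ b ⟨J, hJ, hb⟩
    obtain ⟨K, hK, hIK, hJK⟩ := hd I hI J hJ
    obtain ⟨c, hc, hac, hbc⟩ := K.directed a (hIK ha) b (hJK hb)
    exact ⟨c, ⟨K, hK, hc⟩, hac, hbc⟩

lemma mem_unionIdeal {D : Set (Order.Ideal Q)} {hne : D.Nonempty} {hd : DirectedOn (· ≤ ·) D}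
    {q : Q} : q ∈ unionIdeal D hne hd ↔ ∃ I ∈ D, q ∈ I := Iff.rfl

lemma isLUB_union (D : Set (Order.Ideal Q)) (hne : D.Nonempty) (hd : DirectedOn (· ≤ ·) D) :
    IsLUB D (unionIdeal D hne hd) := by
  constructor
  · intro I hI q hq
    exact ⟨I, hI, hq⟩
  · rintro J hJ q ⟨I, hI, hq⟩
    exact hJ hI hq

lemma compact_principal (q : Q) : Compact (Order.Ideal.principal q) := by
  intro D hne hd s hs hq
  have h1 : s = unionIdeal D hne hd := hs.unique (isLUB_union D hne hd)
  have h2 : q ∈ s := hq (Order.Ideal.mem_principal_self)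
  rw [h1] at h2
  obtain ⟨I, hI, hqI⟩ := h2
  exact ⟨I, hI, Order.Ideal.principal_le_iff.2 hqI⟩

theorem algebraic_ideal (Q : Type*) [PartialOrder Q] : Algebraic (Order.Ideal Q) := by
  refine ⟨fun D hne hd => ⟨_, isLUB_union D hne hd⟩, fun I => ?_⟩
  refine ⟨{J | ∃ q ∈ I, J = Order.Ideal.principal q}, ?_, ?_, ?_, ?_, ?_⟩
  · obtain ⟨q, hq⟩ := I.nonempty
    exact ⟨_, q, hq, rfl⟩
  · rintro _ ⟨a, ha, rfl⟩ _ ⟨b, hb, rfl⟩
    obtain ⟨c, hc, hac, hbc⟩ := I.directed a ha b hb
    exact ⟨_, ⟨c, hc, rfl⟩, Order.Ideal.principal_le_iff.2 (Order.Ideal.mem_principal.2 hac),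
      Order.Ideal.principal_le_iff.2 (Order.Ideal.mem_principal.2 hbc)⟩
  · rintro _ ⟨a, _, rfl⟩
    exact compact_principal a
  · rintro _ ⟨a, ha, rfl⟩
    exact Order.Ideal.principal_le_iff.2 ha
  · intro J hJ q hq
    exact hJ ⟨q, hq, rfl⟩ (Order.Ideal.mem_principal_self)

end Ideals

/-! ### The poset `Q` -/

/-- the pairs of a natural number and a nonnegative rational -/
structure Pt where
  lvl : ℕ
  val : ℚ≥0

instance : PartialOrder Pt where
  le a b := a.lvl ≤ b.lvl ∧ (a.val < b.val ∨ (a.val = b.val ∧ (a.val = 0 ∨ a.lvl = b.lvl)))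
  le_refl a := ⟨le_rfl, Or.inr ⟨rfl, Or.inr rfl⟩⟩
  le_trans a b c := by
    rintro ⟨h1, h2⟩ ⟨h3, h4⟩
    refine ⟨h1.trans h3, ?_⟩
    rcases h2 with h2 | ⟨h2, h2'⟩
    · rcases h4 with h4 | ⟨h4, _⟩
      · exact Or.inl (h2.trans h4)
      · exact Or.inl (h4 ▸ h2)
    · rcases h4 with h4 | ⟨h4, h4'⟩
      · exact Or.inl (h2 ▸ h4)
      · refine Or.inr ⟨h2.trans h4, ?_⟩
        rcases h2' with h5 | h5
        · exact Or.inl h5
        · rcases h4' with h6 | h6
          · exact Or.inl (h2.trans h6)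
          · exact Or.inr (h5.trans h6)
  le_antisymm a b := by
    rintro ⟨h1, h2⟩ ⟨h3, h4⟩
    have hl : a.lvl = b.lvl := le_antisymm h1 h3
    have hv : a.val = b.val := by
      rcases h2 with h2 | h2
      · rcases h4 with h4 | h4
        · exact absurd (h2.trans h4) (lt_irrefl _)
        · exact absurd (h4.1 ▸ h2) (lt_irrefl _)
      · exact h2.1
    cases a; cases b; simp_all

lemma le_def (a b : Pt) : a ≤ b ↔
    a.lvl ≤ b.lvl ∧ (a.val < b.val ∨ (a.val = b.val ∧ (a.val = 0 ∨ a.lvl = b.lvl))) := Iff.rfl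

lemma le_of {a b : Pt} (h1 : a.lvl ≤ b.lvl) (h2 : a.val < b.val) : a ≤ b := ⟨h1, Or.inl h2⟩

/-- the ideal of all pairs with value less than `r` -/
def below (r : ℚ≥0) (hr : 0 < r) : Order.Ideal Pt where
  carrier := {a | a.val < r}
  lower' := by
    rintro a b ⟨_, h⟩ (ha : a.val < r)
    rcases h with h | ⟨h, _⟩
    · exact h.trans ha
    · exact (h ▸ ha : b.val < r)
  nonempty' := ⟨⟨0, 0⟩, hr⟩
  directed' := by
    rintro a (ha : a.val < r) b (hb : b.val < r)
    obtain ⟨t, h1, h2⟩ := exists_between (max_lt ha hb)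
    exact ⟨⟨max a.lvl b.lvl, t⟩, h2, le_of (le_max_left _ _) ((le_max_left _ _).trans_lt h1),
      le_of (le_max_right _ _) ((le_max_right _ _).trans_lt h1)⟩

lemma mem_below {r : ℚ≥0} {hr : 0 < r} {a : Pt} : a ∈ below r hr ↔ a.val < r := Iff.rfl

/-- the ideal of all pairs with value `0` -/
def xI : Order.Ideal Pt where
  carrier := {a | a.val = 0}
  lower' := by
    rintro a b ⟨_, h⟩ (ha : a.val = 0)
    rcases h with h | ⟨h, _⟩
    · rw [ha] at h
      exact absurd h not_lt_zero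
    · exact (h ▸ ha : b.val = 0)
  nonempty' := ⟨⟨0, 0⟩, rfl⟩
  directed' := by
    rintro a (ha : a.val = 0) b (hb : b.val = 0)
    exact ⟨⟨max a.lvl b.lvl, 0⟩, rfl, ⟨le_max_left _ _, Or.inr ⟨ha, Or.inl ha⟩⟩,
      ⟨le_max_right _ _, Or.inr ⟨hb, Or.inl hb⟩⟩⟩

/-- the ideal of all pairs -/
def yI : Order.Ideal Pt where
  carrier := Set.univ
  lower' := fun _ _ _ _ => trivial
  nonempty' := ⟨⟨0, 0⟩, trivial⟩
  directed' := by
    rintro a _ b _
    refine ⟨⟨max a.lvl b.lvl, max a.val b.val + 1⟩, trivial, le_of (le_max_left _ _) ?_,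
      le_of (le_max_right _ _) ?_⟩
    · exact lt_of_le_of_lt (le_max_left _ _) (lt_add_one _)
    · exact lt_of_le_of_lt (le_max_right _ _) (lt_add_one _)

lemma x_lt_y : xI < yI := by
  refine lt_of_le_of_ne (fun _ _ => trivial) fun h => ?_
  have h1 : (⟨0, 1⟩ : Pt) ∈ yI := trivial
  rw [← h] at h1
  exact one_ne_zero (α := ℚ≥0) h1

/-- An ideal containing `x` and a pair with positive value `t` contains a pair with a value
larger than `t` and an arbitrarily large level. -/
lemma climb {K : Order.Ideal Pt} (hK : xI ≤ K) {a : Pt} (ha : a ∈ K) (h0 : 0 < a.val) (m : ℕ) :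
    ∃ b ∈ K, m ≤ b.lvl ∧ a.val < b.val := by
  have hm : (⟨max m (a.lvl + 1), 0⟩ : Pt) ∈ K := hK (rfl : (0 : ℚ≥0) = 0)
  obtain ⟨b, hb, hab, hmb⟩ := K.directed a ha _ hm
  have h1 : max m (a.lvl + 1) ≤ b.lvl := hmb.1
  have h2 : m ≤ b.lvl := (le_max_left _ _).trans h1
  have h3 : a.lvl + 1 ≤ b.lvl := (le_max_right _ _).trans h1
  refine ⟨b, hb, h2, ?_⟩
  rcases hab.2 with h | ⟨_, h | h⟩
  · exact h
  · exact absurd h h0.ne'
  · omega

/-- An ideal containing `x` and a pair with positive value `t` contains all pairs with value at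
most `t`. -/
lemma mem_of_le {K : Order.Ideal Pt} (hK : xI ≤ K) {a : Pt} (ha : a ∈ K) (h0 : 0 < a.val)
    {c : Pt} (hc : c.val ≤ a.val) : c ∈ K := by
  obtain ⟨b, hb, h1, h2⟩ := climb hK ha h0 c.lvl
  exact K.lower (le_of h1 (hc.trans_lt h2)) hb

/-- There is no covering pair above `x`. -/
lemma dense {u v : Order.Ideal Pt} (hu : xI ≤ u) (huv : u < v) : ∃ w, u < w ∧ w < v := by
  obtain ⟨a, hav, hau⟩ := Set.exists_of_ssubset (show (u : Set Pt) ⊂ v from huv)
  have hv : xI ≤ v := hu.trans huv.le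
  have h0 : 0 < a.val := by
    rw [pos_iff_ne_zero]
    intro h
    exact hau (hu h)
  obtain ⟨b, hbv, _, hab⟩ := climb hv hav h0 0
  obtain ⟨r, har, hrb⟩ := exists_between hab
  have hr : 0 < r := h0.trans har
  refine ⟨below r hr, ?_, ?_⟩
  · refine lt_of_le_of_ne ?_ ?_
    · intro c hc
      rw [mem_below]
      by_contra hcon
      push Not at hcon
      exact hau (mem_of_le hu hc (hr.trans_le hcon) (har.le.trans hcon))
    · intro h
      have : a ∈ below r hr := har
      rw [← h] at this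
      exact hau this
  · refine lt_of_le_of_ne ?_ ?_
    · intro c hc
      rw [mem_below] at hc
      exact mem_of_le hv hbv (hr.trans hrb) (hc.trans hrb).le
    · intro h
      rw [← h] at hbv
      exact absurd (mem_below.1 hbv) (not_lt.2 hrb.le)

/-- There is an algebraic poset `P` with elements `x < y` such that the interval between `x` and
`y` contains no covering pair: if `x ≤ u < v ≤ y` then `u < w < v` for some `w`. So not every
algebraic poset is weakly atomic. -/
theorem result :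
    ∃ (P : Type) (_ : PartialOrder P), Algebraic P ∧ ∃ x y : P, x < y ∧
      ∀ u v : P, x ≤ u → v ≤ y → u < v → ∃ w, u < w ∧ w < v :=
  ⟨Order.Ideal Pt, inferInstance, algebraic_ideal Pt, xI, yI, x_lt_y,
    fun _ _ hu _ huv => dense hu huv⟩

end Pool.Agent.Results.MP_e59eee_co.NotWeaklyAtomic
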